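import Pool.Agent.helper81.PJ.Spec2

/-! Row pj:FING: Moebius images of intervals, all moments (the proof of FINM by helper17). -/

set_option autoImplicit false

open Finset

namespace Pool.Agent.PJ

open Pool.Agent.PY2

private theorem FING_point {p : ℕ} [Fact p.Prime] (χ : MulChar (ZMod p) ℂ) (a b c d n w : ZMod p)
    (h1 : c * n + d ≠ 0) (h2 : a + c * w ≠ 0) :
    χ ((a * n + b) / (c * n + d) + w) =
      χ ((c * n + d)⁻¹) * (χ (a + c * w) * χ (n + (b + d * w) / (a + c * w))) := by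
  rw [← map_mul, ← map_mul]
  congr 1
  have e1 : (a + c * w) * (n + (b + d * w) / (a + c * w)) = (a + c * w) * n + (b + d * w) := by
    rw [mul_add, mul_div_cancel₀ _ h2]
  have e2 : w = (c * n + d)⁻¹ * ((c * n + d) * w) := by
    rw [inv_mul_cancel_left₀ h1]
  rw [e1, div_eq_inv_mul]
  calc (c * n + d)⁻¹ * (a * n + b) + w
      = (c * n + d)⁻¹ * (a * n + b) + (c * n + d)⁻¹ * ((c * n + d) * w) := by rw [← e2]
    _ = _ := by ring

private theorem FING_norm {p : ℕ} [Fact p.Prime] (χ : MulChar (ZMod p) ℂ) (x : ZMod p) :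
    ‖χ x‖ ≤ 1 :=
  DirichletCharacter.norm_le_one χ x

private theorem FING_inj {p : ℕ} [Fact p.Prime] (a b c d w v : ZMod p) (h : a * d - b * c ≠ 0)
    (h1 : a + c * w ≠ 0) (h2 : a + c * v ≠ 0)
    (he : (b + d * w) / (a + c * w) = (b + d * v) / (a + c * v)) : w = v := by
  rw [div_eq_div_iff h1 h2] at he
  have h3 : (a * d - b * c) * (w - v) = 0 := by linear_combination he
  rcases mul_eq_zero.mp h3 with h4 | h4
  · exact absurd h4 h
  · exact sub_eq_zero.mp h4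

private theorem FING_big (t C : ℝ) (ht : 0 < t) : ∃ p₁ : ℕ, ∀ p : ℕ, p₁ < p → C ≤ (p : ℝ) ^ t := by
  have h := ((tendsto_rpow_atTop ht).comp tendsto_natCast_atTop_atTop).eventually_ge_atTop C
  obtain ⟨m, hm⟩ := Filter.eventually_atTop.1 h
  exact ⟨m, fun p hp => hm p hp.le⟩

theorem FING (hCOREG : COREG_stmt) : FING_stmt := by
  intro k l hk hl ε hε
  obtain ⟨δ₀, hδ₀, p₀, hF⟩ := hCOREG k l hk hl (ε / 2) (by linarith)
  obtain ⟨δ₁, hδ₁, hδ₁0, hδ₁4⟩ : ∃ δ₁ : ℝ, 0 < δ₁ ∧ δ₁ ≤ δ₀ ∧ δ₁ ≤ ε :=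
    ⟨min δ₀ ε, lt_min hδ₀ hε, min_le_left _ _, min_le_right _ _⟩
  obtain ⟨p₁, hp₁⟩ := FING_big ε 2 hε
  obtain ⟨p₂, hp₂⟩ := FING_big (ε / 2) 4 (by linarith)
  obtain ⟨p₃, hp₃⟩ := FING_big (δ₁ / 2) 2 (by linarith)
  refine ⟨δ₁ / 2, by linarith, max (max p₀ p₁) (max p₂ p₃), ?_⟩
  intro p hp hpp A B a b c d N V hdet hA hV1 hVN hVp hNlo hNhi hc1 hc2 hc4 hc5 χ hχ β hβ
  have q0 : p₀ < p := lt_of_le_of_lt ((le_max_left _ _).trans (le_max_left _ _)) hpp
  have q1 : 2 ≤ (p : ℝ) ^ ε :=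
    hp₁ p (lt_of_le_of_lt ((le_max_right _ _).trans (le_max_left _ _)) hpp)
  have q2 : 4 ≤ (p : ℝ) ^ (ε / 2) :=
    hp₂ p (lt_of_le_of_lt ((le_max_left _ _).trans (le_max_right _ _)) hpp)
  have q3 : 2 ≤ (p : ℝ) ^ (δ₁ / 2) :=
    hp₃ p (lt_of_le_of_lt ((le_max_right _ _).trans (le_max_right _ _)) hpp)
  have hp0 : (0 : ℝ) < p := by exact_mod_cast hp.out.pos
  have hp1 : (1 : ℝ) ≤ p := by exact_mod_cast hp.out.one_lt.le
  -- choose `n`
  choose! n hnN hnd hnz using hA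
  set B₁ : Finset (ZMod p) := B.filter (fun w => a + c * w ≠ 0) with hB₁
  set g : ZMod p → ZMod p := fun w => (b + d * w) / (a + c * w) with hg
  have hginj : Set.InjOn g (B₁ : Set (ZMod p)) := by
    intro w hw v hv he
    have hw' := (mem_filter.mp (mem_coe.mp hw)).2
    have hv' := (mem_filter.mp (mem_coe.mp hv)).2
    exact FING_inj a b c d w v hdet hw' hv' he
  have hBcard : B.card ≤ B₁.card + 1 := by
    have h2 : (B.filter (fun w => ¬ (a + c * w ≠ 0))).card ≤ 1 := by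
      rw [card_le_one]
      intro x hx y hy
      have hx' := (mem_filter.mp hx).2
      have hy' := (mem_filter.mp hy).2
      rw [not_not] at hx' hy'
      have h3 : c * (x - y) = 0 := by linear_combination hx' - hy'
      rcases mul_eq_zero.mp h3 with h4 | h4
      · exfalso
        rw [h4, zero_mul, add_zero] at hx'
        apply hdet
        rw [h4, hx']
        ring
      · exact sub_eq_zero.mp h4
    have h5 : B₁.card + (B.filter (fun w => ¬ (a + c * w ≠ 0))).card = B.card :=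
      card_filter_add_card_filter_not (s := B) (fun w => a + c * w ≠ 0)
    omega
  set B' : Finset (ZMod p) := B₁.image g with hB'
  have hB'card : B'.card = B₁.card := card_image_of_injOn hginj
  set β' : ZMod p → ℂ := fun y => β (Function.invFunOn g (B₁ : Set (ZMod p)) y) *
    χ (a + c * Function.invFunOn g (B₁ : Set (ZMod p)) y) with hβ'
  have hβ'1 : ∀ y, ‖β' y‖ ≤ 1 := by
    intro y
    rw [hβ']
    simp only [norm_mul]
    exact mul_le_one₀ (hβ _) (norm_nonneg _) (FING_norm χ _)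
  have hinv : ∀ w ∈ B₁, Function.invFunOn g (B₁ : Set (ZMod p)) (g w) = w := by
    intro w hw
    exact hginj.leftInvOn_invFunOn (mem_coe.mpr hw)
  -- the set `A'`
  have hninj : Set.InjOn n (A : Set (ZMod p)) := by
    intro z hz y hy he
    have hz' := mem_coe.mp hz
    have hy' := mem_coe.mp hy
    rw [hnz z hz', hnz y hy', he]
  set A' : Finset ℕ := A.image n with hA'
  have hA'card : A'.card = A.card := card_image_of_injOn hninj
  have hA'N : A' ⊆ range N := by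
    intro x hx
    rw [hA', mem_image] at hx
    obtain ⟨z, hz, rfl⟩ := hx
    exact mem_range.mpr (hnN z hz)
  have hAN : A.card ≤ N := by
    rw [← hA'card]
    exact (card_le_card hA'N).trans (card_range N).le
  -- pointwise bound
  have hpt : ∀ z ∈ A, ‖∑ w ∈ B, β w * χ (z + w)‖ ≤
      ‖∑ y ∈ B', β' y * χ (((n z : ℕ) : ZMod p) + y)‖ + 1 := by
    intro z hz
    have hsplit : ∑ w ∈ B, β w * χ (z + w) = ∑ w ∈ B₁, β w * χ (z + w) +
        ∑ w ∈ B.filter (fun w => ¬ (a + c * w ≠ 0)), β w * χ (z + w) :=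
      (sum_filter_add_sum_filter_not B _ _).symm
    have e1 : ∑ w ∈ B₁, β w * χ (z + w) = χ ((c * (n z : ZMod p) + d)⁻¹) *
        ∑ y ∈ B', β' y * χ (((n z : ℕ) : ZMod p) + y) := by
      rw [hB', sum_image hginj, mul_sum]
      apply sum_congr rfl
      intro w hw
      have hw' := (mem_filter.mp hw).2
      have e2 := FING_point χ a b c d (n z : ZMod p) w (hnd z hz) hw'
      rw [← hnz z hz] at e2
      rw [e2, hβ']
      simp only [hinv w hw]
      rw [hg]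
      ring
    have e3 : ‖∑ w ∈ B₁, β w * χ (z + w)‖ ≤
        ‖∑ y ∈ B', β' y * χ (((n z : ℕ) : ZMod p) + y)‖ := by
      rw [e1, norm_mul]
      exact mul_le_of_le_one_left (norm_nonneg _) (FING_norm χ _)
    have e4 : ‖∑ w ∈ B.filter (fun w => ¬ (a + c * w ≠ 0)), β w * χ (z + w)‖ ≤ 1 := by
      have h5 : B₁.card + (B.filter (fun w => ¬ (a + c * w ≠ 0))).card = B.card :=
        card_filter_add_card_filter_not (s := B) (fun w => a + c * w ≠ 0)
      have h6 : ((B.filter (fun w => ¬ (a + c * w ≠ 0))).card : ℝ) ≤ 1 := by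
        have : (B.filter (fun w => ¬ (a + c * w ≠ 0))).card ≤ 1 := by omega
        exact_mod_cast this
      calc ‖∑ w ∈ B.filter (fun w => ¬ (a + c * w ≠ 0)), β w * χ (z + w)‖
          ≤ ∑ w ∈ B.filter (fun w => ¬ (a + c * w ≠ 0)), ‖β w * χ (z + w)‖ := norm_sum_le _ _
        _ ≤ ∑ w ∈ B.filter (fun w => ¬ (a + c * w ≠ 0)), (1 : ℝ) := by
            apply sum_le_sum
            intro w _
            rw [norm_mul]
            exact mul_le_one₀ (hβ w) (norm_nonneg _) (FING_norm χ _)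
        _ = ((B.filter (fun w => ¬ (a + c * w ≠ 0))).card : ℝ) := by simp
        _ ≤ 1 := h6
    rw [hsplit]
    exact (norm_add_le _ _).trans (add_le_add e3 e4)
  -- sizes
  have hANr : (A.card : ℝ) ≤ N := by exact_mod_cast hAN
  have hN0 : (0 : ℝ) < N := lt_of_lt_of_le (by positivity) hNlo
  have hV0 : 0 < V := by linarith
  have hYlow : (p : ℝ) ^ ε ≤ B.card := by
    have h1 : (N : ℝ) ^ (2 * l) * (p : ℝ) ^ ε ≤ (N : ℝ) ^ (2 * l) * B.card :=
      hc4.trans (mul_le_mul_of_nonneg_right (pow_le_pow_left₀ (Nat.cast_nonneg _) hANr _)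
        (Nat.cast_nonneg _))
    exact le_of_mul_le_mul_left h1 (by positivity)
  have hBr : (B.card : ℝ) ≤ B₁.card + 1 := by exact_mod_cast hBcard
  have c3 : (B.card : ℝ) ≤ 2 * (B'.card : ℝ) := by
    rw [hB'card]
    linarith
  have hA00 : (0 : ℝ) ≤ A.card := Nat.cast_nonneg _
  have hB00 : (0 : ℝ) ≤ B.card := Nat.cast_nonneg _
  have hB'00 : (0 : ℝ) ≤ B'.card := Nat.cast_nonneg _
  have hpow : ∀ t : ℝ, 4 * (p : ℝ) ^ (t + ε / 2) ≤ (p : ℝ) ^ (t + ε) := by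
    intro t
    have e : (p : ℝ) ^ (t + ε) = (p : ℝ) ^ (ε / 2) * (p : ℝ) ^ (t + ε / 2) := by
      rw [← Real.rpow_add hp0]
      congr 1
      ring
    rw [e]
    exact mul_le_mul_of_nonneg_right q2 (by positivity)
  have c1 : (p : ℝ) ^ (1 / (l : ℝ) + ε / 2) ≤ N :=
    (Real.rpow_le_rpow_of_exponent_le hp1 (by linarith)).trans hNlo
  have c2 : (N : ℝ) ≤ (p : ℝ) ^ (1 - ε / 2) :=
    hNhi.trans (Real.rpow_le_rpow_of_exponent_le hp1 (by linarith))
  have d1 : (N : ℝ) ^ 2 * (p : ℝ) ^ (ε / 2) ≤ V * (A'.card : ℝ) ^ 2 := by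
    rw [hA'card]
    refine le_trans (mul_le_mul_of_nonneg_left ?_ (by positivity)) hc1
    exact Real.rpow_le_rpow_of_exponent_le hp1 (by linarith)
  have d2 : (N : ℝ) ^ (2 * k - 1) * (p : ℝ) ^ (1 + ε / 2) ≤
      V ^ (k - 1) * ((A'.card : ℝ) ^ (2 * k) * B'.card) := by
    rw [hA'card]
    have h1 := mul_le_mul_of_nonneg_left (hpow 1) (by positivity : (0 : ℝ) ≤ (N : ℝ) ^ (2 * k - 1))
    have h2 := mul_le_mul_of_nonneg_left c3 (by positivity : (0 : ℝ) ≤ V ^ (k - 1) * (A.card : ℝ) ^ (2 * k))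
    have h3 : 0 ≤ V ^ (k - 1) * ((A.card : ℝ) ^ (2 * k) * B'.card) := by positivity
    nlinarith [h1, h2, hc2, h3]
  have d4 : (N : ℝ) ^ (2 * l) * (p : ℝ) ^ (ε / 2) ≤ (A'.card : ℝ) ^ (2 * l) * B'.card := by
    rw [hA'card]
    have h0 := hpow 0
    rw [zero_add, zero_add] at h0
    have h1 := mul_le_mul_of_nonneg_left h0 (by positivity : (0 : ℝ) ≤ (N : ℝ) ^ (2 * l))
    have h2 := mul_le_mul_of_nonneg_left c3 (by positivity : (0 : ℝ) ≤ (A.card : ℝ) ^ (2 * l))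
    have h3 : 0 ≤ (A.card : ℝ) ^ (2 * l) * B'.card := by positivity
    nlinarith [h1, h2, hc4, h3]
  have d5 : V * (N : ℝ) ^ (2 * l - 1) * (p : ℝ) ^ (1 + 1 / (l : ℝ) + ε / 2) ≤
      (A'.card : ℝ) ^ (2 * l + 1) * (B'.card : ℝ) ^ 2 := by
    rw [hA'card]
    have h1 := mul_le_mul_of_nonneg_left (hpow (1 + 1 / (l : ℝ)))
      (by positivity : (0 : ℝ) ≤ V * (N : ℝ) ^ (2 * l - 1))
    have h4 : (B.card : ℝ) ^ 2 ≤ (2 * (B'.card : ℝ)) ^ 2 := pow_le_pow_left₀ hB00 c3 2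
    have h2 := mul_le_mul_of_nonneg_left h4 (by positivity : (0 : ℝ) ≤ (A.card : ℝ) ^ (2 * l + 1))
    nlinarith [h1, h2, hc5]
  have hmain := hF p q0 N V A' B' hA'N hV1 hVN hVp c1 c2 d1 d2 d4 d5 χ hχ β' hβ'1
  have hsum : ∑ z ∈ A, ‖∑ w ∈ B, β w * χ (z + w)‖ ≤
      (p : ℝ) ^ (-δ₀) * (A.card * B'.card) + A.card := by
    calc ∑ z ∈ A, ‖∑ w ∈ B, β w * χ (z + w)‖
        ≤ ∑ z ∈ A, (‖∑ y ∈ B', β' y * χ (((n z : ℕ) : ZMod p) + y)‖ + 1) :=
          sum_le_sum hpt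
      _ = ∑ z ∈ A, ‖∑ y ∈ B', β' y * χ (((n z : ℕ) : ZMod p) + y)‖ + A.card := by
          rw [sum_add_distrib]; simp
      _ = ∑ x ∈ A', ‖∑ y ∈ B', β' y * χ ((x : ZMod p) + y)‖ + A.card := by
          rw [hA', sum_image hninj]
      _ ≤ (p : ℝ) ^ (-δ₀) * (A.card * B'.card) + A.card := by
          rw [hA'card] at hmain
          linarith
  refine hsum.trans ?_
  have hB1B : (B'.card : ℝ) ≤ B.card := by
    rw [hB'card]
    have : B₁.card ≤ B.card := card_filter_le _ _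
    exact_mod_cast this
  have hA0 : (0 : ℝ) ≤ A.card := Nat.cast_nonneg _
  have hB0 : (0 : ℝ) ≤ B.card := Nat.cast_nonneg _
  have m1 : (p : ℝ) ^ (-δ₀) ≤ (p : ℝ) ^ (-δ₁) :=
    Real.rpow_le_rpow_of_exponent_le hp1 (by linarith)
  have m2 : 1 ≤ (p : ℝ) ^ (-δ₁) * B.card := by
    have h2 : (p : ℝ) ^ (-ε) * (p : ℝ) ^ ε = 1 := by
      rw [← Real.rpow_add hp0]; simp
    have h3 : (p : ℝ) ^ (-ε) ≤ (p : ℝ) ^ (-δ₁) :=
      Real.rpow_le_rpow_of_exponent_le hp1 (by linarith)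
    rw [← h2]
    exact mul_le_mul h3 hYlow (by positivity) (by positivity)
  have m3 : 2 * (p : ℝ) ^ (-δ₁) ≤ (p : ℝ) ^ (-(δ₁ / 2)) := by
    have : (p : ℝ) ^ (-(δ₁ / 2)) = (p : ℝ) ^ (δ₁ / 2) * (p : ℝ) ^ (-δ₁) := by
      rw [← Real.rpow_add hp0]; congr 1; ring
    rw [this]
    exact mul_le_mul_of_nonneg_right q3 (by positivity)
  calc (p : ℝ) ^ (-δ₀) * (A.card * B'.card) + A.card
      ≤ (p : ℝ) ^ (-δ₁) * (A.card * B.card) + (p : ℝ) ^ (-δ₁) * (A.card * B.card) := by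
        apply add_le_add
        · exact mul_le_mul m1 (mul_le_mul_of_nonneg_left hB1B hA0) (by positivity)
            (by positivity)
        · calc (A.card : ℝ) = A.card * 1 := (mul_one _).symm
            _ ≤ A.card * ((p : ℝ) ^ (-δ₁) * B.card) := mul_le_mul_of_nonneg_left m2 hA0
            _ = (p : ℝ) ^ (-δ₁) * (A.card * B.card) := by ring
    _ = 2 * (p : ℝ) ^ (-δ₁) * (A.card * B.card) := by ring
    _ ≤ (p : ℝ) ^ (-(δ₁ / 2)) * (A.card * B.card) :=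
        mul_le_mul_of_nonneg_right m3 (by positivity)

end Pool.Agent.PJ
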